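import Pool.Agent.W78.GR.Basic
import Pool.Agent.W999.GA.TK

/-! Project GR (helper78), task GR-9: the Turan-Kubilius inequality for the elements `ϖ m` of norm
`m = p q` in a logarithmic window, real quadratic orders. Port of `Pool.Agent.W999.GA.TK`. -/

set_option autoImplicit false

namespace Pool.Agent.W248.GR

open Finset Filter
open Pool.Agent.W78.GR

variable {t c : ℤ}

variable {η : (Qd t c)ˣ}

lemma kap_pos (U : Un t c η) : 0 < kap η := by
  unfold kap
  exact div_pos U.rg_pos (sd_pos U.disc)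

/-- closed annuli -/
theorem ann_closed (U : Un t c η) {C : ℝ} (hC : 0 < C)
    (hlat : ∀ A B : ℝ, 1 ≤ A → A ≤ B →
      |∑ z ∈ ann η A B, 1 / (nm z : ℝ) - kap η * Real.log (B / A)| ≤ C / Real.sqrt A)
    {A B : ℝ} (hA : 2 ≤ A) (hAB : A ≤ B) :
    |∑ z ∈ (ball η B).filter (fun z => A ≤ (nm z : ℝ)), 1 / (nm z : ℝ) -
      kap η * Real.log (B / A)| ≤ (kap η + 2 * C) / Real.sqrt A := by
  have hA0 : 0 < A := by linarith
  have hB0 : 0 < B := by linarith
  have hpi := kap_pos U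
  have hs0 : 0 < Real.sqrt A := Real.sqrt_pos.2 hA0
  have hs1 : 1 ≤ Real.sqrt A := by
    rw [Real.one_le_sqrt]; linarith
  have hss : Real.sqrt A * Real.sqrt A = A := Real.mul_self_sqrt hA0.le
  rw [abs_le]
  constructor
  · -- lower bound
    have h1 := (abs_le.1 (hlat A B (by linarith) hAB)).1
    have h2 : ∑ z ∈ ann η A B, 1 / (nm z : ℝ) ≤
        ∑ z ∈ (ball η B).filter (fun z => A ≤ (nm z : ℝ)), 1 / (nm z : ℝ) := by
      refine sum_le_sum_of_subset_of_nonneg ?_ (fun _ _ _ => by positivity)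
      intro z hz
      rw [U.mem_ann] at hz
      rw [mem_filter, U.mem_ball]
      exact ⟨⟨hz.1, hz.2.2⟩, hz.2.1.le⟩
    have h3 : C / Real.sqrt A ≤ (kap η + 2 * C) / Real.sqrt A :=
      div_le_div_of_nonneg_right (by linarith) hs0.le
    linarith
  · -- upper bound
    set A' := A - Real.sqrt A / 2 with hA'
    have hA'2 : A / 2 ≤ A' := by
      rw [hA']
      nlinarith
    have hA'1 : 1 ≤ A' := by linarith
    have hA'A : A' < A := by rw [hA']; linarith
    have hA'0 : 0 < A' := by linarith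
    have h1 := (abs_le.1 (hlat A' B hA'1 (by linarith))).2
    have h2 : ∑ z ∈ (ball η B).filter (fun z => A ≤ (nm z : ℝ)), 1 / (nm z : ℝ) ≤
        ∑ z ∈ ann η A' B, 1 / (nm z : ℝ) := by
      refine sum_le_sum_of_subset_of_nonneg ?_ (fun _ _ _ => by positivity)
      intro z hz
      rw [mem_filter, U.mem_ball] at hz
      rw [U.mem_ann]
      exact ⟨hz.1.1, by linarith [hz.2], hz.1.2⟩
    have h3 : Real.log (B / A') ≤ Real.log (B / A) + 1 / Real.sqrt A := by
      rw [Real.log_div hB0.ne' hA'0.ne', Real.log_div hB0.ne' hA0.ne']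
      have h4 : Real.log A - Real.log A' ≤ A / A' - 1 := by
        rw [← Real.log_div hA0.ne' hA'0.ne']
        exact Real.log_le_sub_one_of_pos (by positivity)
      have h5 : A / A' - 1 ≤ 1 / Real.sqrt A := by
        rw [div_sub_one hA'0.ne', div_le_div_iff₀ hA'0 hs0]
        have h6 : A - A' = Real.sqrt A / 2 := by rw [hA']; ring
        rw [h6]
        nlinarith
      linarith
    have h4 : C / Real.sqrt A' ≤ 2 * C / Real.sqrt A := by
      have h5 : Real.sqrt A / 2 ≤ Real.sqrt A' := by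
        apply Real.le_sqrt_of_sq_le
        rw [div_pow, Real.sq_sqrt hA0.le]
        linarith
      rw [div_le_div_iff₀ (Real.sqrt_pos.2 hA'0) hs0]
      nlinarith
    have h5 : kap η * Real.log (B / A') ≤ kap η * (Real.log (B / A) + 1 / Real.sqrt A) :=
      mul_le_mul_of_nonneg_left h3 hpi.le
    have h6 : (kap η + 2 * C) / Real.sqrt A = kap η * (1 / Real.sqrt A) +
        2 * C / Real.sqrt A := by ring
    rw [h6]
    linarith

open scoped Classical in
/-- reciprocals of the norms of the multiples of `d` in a window -/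
theorem tk_mult (U : Un t c η) {C : ℝ} (hC : 0 < C)
    (hlat : ∀ A B : ℝ, 1 ≤ A → A ≤ B →
      |∑ z ∈ ann η A B, 1 / (nm z : ℝ) - kap η * Real.log (B / A)| ≤ C / Real.sqrt A)
    {Y : ℝ} (hY : 0 < Y) {d : Qd t c} (hd : tp d) (hdY : 2 ≤ Y / Real.exp 2 / (nm d : ℝ)) :
    |∑ z ∈ (win η Y).filter (fun z => d ∣ z), 1 / (nm z : ℝ) - 4 * kap η / (nm d : ℝ)| ≤
      (kap η + 2 * C) * Real.exp 1 / Real.sqrt Y := by
  have hd1 : 1 ≤ nm d := nm_pos U.disc hd
  have hd0 : (0 : ℝ) < nm d := by exact_mod_cast hd1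
  have hd1' : (1 : ℝ) ≤ nm d := by exact_mod_cast hd1
  have he : (0 : ℝ) < Real.exp 2 := Real.exp_pos 2
  have hpi := kap_pos U
  have hsum : ∑ z ∈ (win η Y).filter (fun z => d ∣ z), 1 / (nm z : ℝ) =
      (1 / (nm d : ℝ)) * ∑ z ∈ (ball η (Real.exp 2 * Y / nm d)).filter
        (fun z => Y / Real.exp 2 / nm d ≤ (nm z : ℝ)), 1 / (nm z : ℝ) := by
    have e1 := U.sum_dvd hd (Real.exp 2 * Y)
      (fun z => if Y / Real.exp 2 ≤ (nm z : ℝ) then 1 / (nm z : ℝ) else 0)
    have e2 : ∑ z ∈ (win η Y).filter (fun z => d ∣ z), 1 / (nm z : ℝ) =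
        ∑ z ∈ (ball η (Real.exp 2 * Y)).filter (fun z => d ∣ z),
          (if Y / Real.exp 2 ≤ (nm z : ℝ) then 1 / (nm z : ℝ) else 0) := by
      rw [← sum_filter]
      refine sum_congr ?_ fun _ _ => rfl
      ext z
      simp only [mem_filter, U.mem_win, U.mem_ball]
      tauto
    rw [e2, e1, sum_filter, mul_sum]
    refine sum_congr rfl fun z _ => ?_
    rw [Un.nm_rep, nm_mul]
    push_cast
    have h1 : Y / Real.exp 2 ≤ (nm d : ℝ) * (nm z : ℝ) ↔
        Y / Real.exp 2 / (nm d : ℝ) ≤ (nm z : ℝ) := by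
      rw [div_le_iff₀ hd0, mul_comm (nm z : ℝ)]
    by_cases h2 : Y / Real.exp 2 ≤ (nm d : ℝ) * (nm z : ℝ)
    · rw [if_pos h2, if_pos (h1.1 h2), one_div_mul_one_div]
    · rw [if_neg h2, if_neg (fun h => h2 (h1.2 h)), mul_zero]
  rw [hsum]
  have hAB : Y / Real.exp 2 / nm d ≤ Real.exp 2 * Y / nm d := by
    refine div_le_div_of_nonneg_right ?_ hd0.le
    rw [div_le_iff₀ he]
    have h1 : (1 : ℝ) ≤ Real.exp 2 := Real.one_le_exp (by norm_num)
    nlinarith [mul_pos hY he, mul_le_mul_of_nonneg_left h1 (mul_pos he hY).le]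
  have h1 := ann_closed U hC hlat hdY hAB
  have h2 : Real.log (Real.exp 2 * Y / nm d / (Y / Real.exp 2 / nm d)) = 4 := by
    have : Real.exp 2 * Y / nm d / (Y / Real.exp 2 / nm d) = Real.exp 4 := by
      have h4 : Real.exp 4 = Real.exp 2 * Real.exp 2 := by rw [← Real.exp_add]; norm_num
      rw [h4]
      field_simp
    rw [this, Real.log_exp]
  rw [h2] at h1
  set s := ∑ z ∈ (ball η (Real.exp 2 * Y / nm d)).filter
        (fun z => Y / Real.exp 2 / nm d ≤ (nm z : ℝ)), 1 / (nm z : ℝ) with hs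
  have h3 : (1 / (nm d : ℝ)) * s - 4 * kap η / (nm d : ℝ) =
      (1 / (nm d : ℝ)) * (s - kap η * 4) := by ring
  rw [h3, abs_mul, abs_of_pos (by positivity : (0 : ℝ) < 1 / (nm d : ℝ))]
  have hsY : 0 < Real.sqrt Y := Real.sqrt_pos.2 hY
  have hsd : 0 < Real.sqrt (nm d : ℝ) := Real.sqrt_pos.2 hd0
  have hsd1 : 1 ≤ Real.sqrt (nm d : ℝ) := by rw [Real.one_le_sqrt]; exact hd1'
  have hsqrt : Real.sqrt (Y / Real.exp 2 / nm d) = Real.sqrt Y / Real.exp 1 / Real.sqrt (nm d) := by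
    rw [Real.sqrt_div (by positivity), Real.sqrt_div hY.le]
    congr 2
    have : Real.exp 2 = Real.exp 1 ^ 2 := by rw [← Real.exp_nat_mul]; norm_num
    rw [this, Real.sqrt_sq (Real.exp_pos 1).le]
  calc (1 / (nm d : ℝ)) * |s - kap η * 4|
      ≤ (1 / (nm d : ℝ)) * ((kap η + 2 * C) / Real.sqrt (Y / Real.exp 2 / nm d)) :=
        mul_le_mul_of_nonneg_left h1 (by positivity)
    _ = (1 / Real.sqrt (nm d)) * ((kap η + 2 * C) * Real.exp 1 / Real.sqrt Y) := by
        rw [hsqrt]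
        have hdd : (nm d : ℝ) = Real.sqrt (nm d) * Real.sqrt (nm d) :=
          (Real.mul_self_sqrt hd0.le).symm
        have hE := Real.exp_pos 1
        rw [show (1 / (nm d : ℝ)) = 1 / (Real.sqrt (nm d) * Real.sqrt (nm d)) by rw [← hdd]]
        field_simp
    _ ≤ 1 * ((kap η + 2 * C) * Real.exp 1 / Real.sqrt Y) := by
        refine mul_le_mul_of_nonneg_right ?_ (by positivity)
        rw [div_le_one hsd]; exact hsd1
    _ = _ := one_mul _

/-- coprime norms: both divide iff the product divides -/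
lemma mul_dvd_of_coprime (U : Un t c η) {a b z : Qd t c} (hta : tp a) (htb : tp b)
    (h : Nat.Coprime (nm a) (nm b)) (ha : a ∣ z) (hb : b ∣ z) : a * b ∣ z := by
  obtain ⟨x, rfl⟩ := ha
  obtain ⟨y, hy⟩ := hb
  apply mul_dvd_mul_left
  have hco : IsCoprime ((nm a : ℕ) : ℤ) ((nm b : ℕ) : ℤ) := Nat.isCoprime_iff_coprime.2 h
  obtain ⟨u, v, huv⟩ := hco
  have h1 : ((u : ℤ) : Qd t c) * (star a * a) + ((v : ℤ) : Qd t c) * (star b * b) = 1 := by
    rw [star_mul_self_tp U.disc hta, star_mul_self_tp U.disc htb]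
    have := congrArg (fun n : ℤ => (n : Qd t c)) huv
    simpa using this
  refine ⟨((u : ℤ) : Qd t c) * star a * y + ((v : ℤ) : Qd t c) * star b * x, ?_⟩
  calc x = (((u : ℤ) : Qd t c) * (star a * a) + ((v : ℤ) : Qd t c) * (star b * b)) * x := by
        rw [h1, one_mul]
    _ = ((u : ℤ) : Qd t c) * star a * (a * x) + ((v : ℤ) : Qd t c) * star b * b * x := by ring
    _ = _ := by rw [hy]; ring

open scoped Classical in
/-- Both `ϖ m` and `ϖ m'` divide `z`, `m = p q`, `m' = p q'` (or the same with the roles of the two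
sets of primes exchanged): the sum of the reciprocals of the norms is `O(1/(p q q'))`. -/
lemma shared (U : Un t c η) {Ap Bp M : ℕ → Prop} {E : ℕ} {ρ : ℕ → ℤ} {ϖ : ℕ → Qd t c}
    (hS : Ele t c Ap Bp M E ρ ϖ) {C : ℝ}
    (hlati : ∀ (d : ℕ) (r : ℤ), 1 ≤ d → (d : ℤ) ∣ r ^ 2 - t * r + c → ∀ A B : ℝ, 0 < A → A ≤ B →
      ∑ z ∈ (ann η A B).filter (lat d r), 1 / (nm z : ℝ) ≤ C / d * (1 + Real.log (B / A)))
    {Y : ℝ} (hY : 0 < Y) {m m' q' : ℕ} (hm : M m) (hm' : M m')
    (hq' : q'.Prime) (hq'm' : q' ∣ m') (hm'N : m' ∣ m * q') (hq'm : ¬ q' ∣ m) :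
    ∑ z ∈ win η Y, (if ϖ m ∣ z ∧ ϖ m' ∣ z then 1 / (nm z : ℝ) else 0) ≤
      6 * C * (1 / (m : ℝ) * (1 / (q' : ℝ))) := by
  have SmM : ∀ m, M m → Sm Ap Bp m := by
    intro m hm
    obtain ⟨p, q, hp, hq, rfl, -, -⟩ := hS.fac m hm
    have hpp := (hS.prA p hp).1
    have hqq := (hS.prB q hq).1
    refine ⟨mul_ne_zero hpp.ne_zero hqq.ne_zero, fun r hr hrm => ?_⟩
    rcases (Nat.Prime.dvd_mul hr).1 hrm with h | h
    · left; rwa [(Nat.prime_dvd_prime_iff_eq hr hpp).1 h]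
    · right; rwa [(Nat.prime_dvd_prime_iff_eq hr hqq).1 h]
  obtain ⟨hm0, hmS⟩ := SmM m hm
  obtain ⟨hm'0, hm'S⟩ := SmM m' hm'
  set N := m * q' with hN
  have hN0 : N ≠ 0 := mul_ne_zero hm0 hq'.ne_zero
  have hNS : Sm Ap Bp N := by
    refine ⟨hN0, fun r hr hrN => ?_⟩
    rcases (Nat.Prime.dvd_mul hr).1 hrN with h | h
    · exact hmS r hr h
    · rw [(Nat.prime_dvd_prime_iff_eq hr hq').1 h]
      exact hm'S q' hq' hq'm'
  have hroot := hS.root N hNS
  have hlatm : ∀ z : Qd t c, ϖ m ∣ z → ϖ m' ∣ z → lat N (ρ N) z := by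
    intro z h1 h2
    have g : ∀ m, M m → m ∣ N → ϖ m ∣ z → (m : ℤ) ∣ z.re + ρ N * z.im := by
      intro m hm hmN h
      obtain ⟨u, rfl⟩ := h
      have g1 : lat m (ρ m) (ϖ m * u) := lat_mul_left (hS.root m (SmM m hm)) u (hS.elt m hm).2.1
      have g2 := hS.compat m N hNS hmN
      unfold lat at g1
      have g3 : (m : ℤ) ∣ (ρ N - ρ m) * (ϖ m * u).im := g2.mul_right _
      have g4 := dvd_add g1 g3
      have g5 : (ϖ m * u).re + ρ m * (ϖ m * u).im + (ρ N - ρ m) * (ϖ m * u).im =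
          (ϖ m * u).re + ρ N * (ϖ m * u).im := by ring
      rwa [g5] at g4
    have g1 := g m hm (dvd_mul_right _ _) h1
    have g2 := g m' hm' hm'N h2
    have g3 : (q' : ℤ) ∣ z.re + ρ N * z.im := (Int.natCast_dvd_natCast.2 hq'm').trans g2
    unfold lat
    rw [hN]
    push_cast
    refine IsCoprime.mul_dvd ?_ g1 g3
    exact Nat.isCoprime_iff_coprime.2 ((Nat.Prime.coprime_iff_not_dvd hq').2 hq'm).symm
  have he3 : (0 : ℝ) < Real.exp 3 := Real.exp_pos 3
  have he2 : (0 : ℝ) < Real.exp 2 := Real.exp_pos 2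
  have hA : 0 < Y / Real.exp 3 := by positivity
  have hAB : Y / Real.exp 3 ≤ Real.exp 2 * Y := by
    rw [div_le_iff₀ he3]
    have h1 : (1 : ℝ) ≤ Real.exp 2 := Real.one_le_exp (by norm_num)
    have h2 : (1 : ℝ) ≤ Real.exp 3 := Real.one_le_exp (by norm_num)
    have h3 : 1 ≤ Real.exp 2 * Real.exp 3 := by nlinarith
    nlinarith
  have h1 := hlati N (ρ N) (Nat.pos_of_ne_zero hN0) hroot _ _ hA hAB
  have h2 : Real.log (Real.exp 2 * Y / (Y / Real.exp 3)) = 5 := by
    have : Real.exp 2 * Y / (Y / Real.exp 3) = Real.exp 5 := by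
      have h4 : Real.exp 5 = Real.exp 2 * Real.exp 3 := by rw [← Real.exp_add]; norm_num
      rw [h4]
      field_simp
    rw [this, Real.log_exp]
  rw [h2] at h1
  have h3 : C / (N : ℝ) * (1 + 5) = 6 * C * (1 / (m : ℝ) * (1 / (q' : ℝ))) := by
    rw [hN]
    push_cast
    have hm0' : (m : ℝ) ≠ 0 := by exact_mod_cast hm0
    have hq0' : (q' : ℝ) ≠ 0 := by exact_mod_cast hq'.ne_zero
    field_simp
    ring
  rw [h3] at h1
  refine le_trans ?_ h1
  rw [← sum_filter]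
  refine sum_le_sum_of_subset_of_nonneg ?_ (fun _ _ _ => by positivity)
  intro z hz
  rw [mem_filter, U.mem_win] at hz
  obtain ⟨⟨g1, g2, g3⟩, g4, g5⟩ := hz
  rw [mem_filter, U.mem_ann]
  refine ⟨⟨g1, lt_of_lt_of_le ?_ g2, g3⟩, hlatm z g4 g5⟩
  apply div_lt_div_of_pos_left hY he2
  exact Real.exp_lt_exp.2 (by norm_num)

open scoped Classical in
/-- Task GA-11. -/
theorem tk_of (U : Un t c η) : S_LAT t c η → S_LATI t c η → S_TK t c η := by
  rintro ⟨C₀, hC₀, -, hlat'⟩ ⟨C₂, hC₂, hlati'⟩ Ap Bp M E₀ ρ ϖ hEle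
  have hlat : ∀ A B : ℝ, 1 ≤ A → A ≤ B →
      |∑ z ∈ ann η A B, 1 / (nm z : ℝ) - kap η * Real.log (B / A)| ≤ C₀ / Real.sqrt A := by
    intro A B hA hAB
    have h := hlat' A B 1 0 hA hAB le_rfl
    have h1 : (ann η A B).filter (lat 1 0) = ann η A B := by
      apply filter_true_of_mem
      intro z _
      unfold lat
      simp
    rw [h1] at h
    simpa using h
  have hlati : ∀ (d : ℕ) (r : ℤ), 1 ≤ d → (d : ℤ) ∣ r ^ 2 - t * r + c →
      ∀ A B : ℝ, 0 < A → A ≤ B →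
      ∑ z ∈ (ann η A B).filter (lat d r), 1 / (nm z : ℝ) ≤ C₂ / d * (1 + Real.log (B / A)) :=
    fun d r hd hr => (hlati' d r hd hr).2.2
  obtain ⟨C₃, hC₃, hrec⟩ := Pool.Agent.W999.GA.recip_bound E₀ hEle.pos
  set C₁ := (kap η + 2 * C₀) * Real.exp 1 with hC₁
  have hpi := kap_pos U
  have hC₁0 : 0 < C₁ := by positivity
  have npos : ∀ x y : ℕ, 0 ≤ 6 * C₂ * (1 / (x : ℝ) * (1 / (y : ℝ))) := fun x y => by positivity
  have kpos : ∀ x y : ℕ, 0 ≤ 4 * kap η * (1 / (x : ℝ)) * (1 / (y : ℝ)) := fun x y => by positivity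
  have npos1 : ∀ x : ℕ, 0 ≤ 6 * C₂ * (1 / (x : ℝ)) := fun x => by positivity
  choose! a b hfac using hEle.fac
  refine ⟨4 * kap η + 5 * C₁ + 12 * C₂ * C₃, by positivity, fun S Q Y hS hW hQY => ?_⟩
  set W := ∑ p ∈ S, 1 / (p : ℝ) with hWdef
  have hne : S.Nonempty := by
    rw [nonempty_iff_ne_empty]
    rintro rfl
    simp at hWdef
    linarith
  obtain ⟨p₀, hp₀⟩ := hne
  have ha : ∀ m ∈ S, (a m).Prime ∧ 5 ≤ a m := fun m hm =>
    ⟨(hEle.prA _ (hfac m (hS m hm).1).1).1, (hEle.prA _ (hfac m (hS m hm).1).1).2.1⟩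
  have hb : ∀ m ∈ S, (b m).Prime ∧ 5 ≤ b m := fun m hm =>
    ⟨(hEle.prB _ (hfac m (hS m hm).1).2.1).1, (hEle.prB _ (hfac m (hS m hm).1).2.1).2.1⟩
  have hab : ∀ m ∈ S, m = a m * b m := fun m hm => (hfac m (hS m hm).1).2.2.1
  have hanb : ∀ m ∈ S, ∀ m' ∈ S, a m ≠ b m' := by
    intro m hm m' hm' h
    have h1 := (hfac m (hS m hm).1).1
    rw [h] at h1
    exact hEle.disj _ h1 (hfac m' (hS m' hm').1).2.1
  have h5 : ∀ p ∈ S, (5 : ℝ) ≤ p := by
    intro p hp
    have h1 := (ha p hp).2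
    have h2 := (hb p hp).2
    have h3 : 5 ≤ p := by rw [hab p hp]; nlinarith
    exact_mod_cast h3
  have hQ : 5 ≤ Q := (h5 p₀ hp₀).trans (hS p₀ hp₀).2
  have hY : 0 < Y := lt_of_lt_of_le (by positivity) hQY
  have hQQ : Q ≤ Q ^ 2 := by nlinarith
  set E := C₁ / Real.sqrt Y with hE
  have hE0 : 0 < E := by
    have := Real.sqrt_pos.2 hY
    positivity
  have hcardQ : (S.card : ℝ) ≤ Q := by
    have h1 : S ⊆ Icc 1 ⌊Q⌋₊ := by
      intro p hp
      rw [mem_Icc, Nat.le_floor_iff (by linarith)]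
      have h2 : (1 : ℝ) ≤ p := by linarith [h5 p hp]
      exact ⟨by exact_mod_cast h2, (hS p hp).2⟩
    have h2 := card_le_card h1
    rw [Nat.card_Icc] at h2
    have h3 : (S.card : ℝ) ≤ (⌊Q⌋₊ : ℝ) := by
      have : S.card ≤ ⌊Q⌋₊ := by omega
      exact_mod_cast this
    exact h3.trans (Nat.floor_le (by linarith))
  have hWcard : W ≤ S.card := by
    rw [hWdef]
    refine (sum_le_card_nsmul S _ 1 fun p hp => ?_).trans (by simp)
    have h1 : (1 : ℝ) ≤ p := by linarith [h5 p hp]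
    rw [div_le_one (by linarith)]
    exact h1
  have he8 : Real.exp 2 ≤ 8 := by
    have h1 : Real.exp 2 = Real.exp 1 * Real.exp 1 := by rw [← Real.exp_add]; norm_num
    have h2 := Real.exp_one_lt_d9
    have h3 := Real.exp_pos 1
    rw [h1]
    nlinarith
  have he : (0 : ℝ) < Real.exp 2 := Real.exp_pos 2
  have hwin : ∀ D : ℝ, 0 < D → D ≤ Q ^ 2 → 2 ≤ Y / Real.exp 2 / D := by
    intro D hD hDQ
    rw [le_div_iff₀ hD, le_div_iff₀ he]
    have h1 : 2 * D * Real.exp 2 ≤ 2 * Q ^ 2 * 8 := by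
      have h2 : D * Real.exp 2 ≤ Q ^ 2 * 8 := mul_le_mul hDQ he8 he.le (by positivity)
      linarith
    have h2 : 2 * Q ^ 2 * 8 ≤ Q ^ 4 := by
      have h3 : 25 ≤ Q ^ 2 := by nlinarith
      have h4 : Q ^ 4 = Q ^ 2 * Q ^ 2 := by ring
      rw [h4]
      nlinarith
    linarith
  have htp : ∀ m ∈ S, tp (ϖ m) := fun m hm => (hEle.elt m (hS m hm).1).2.2
  -- the sums over the multiples
  set T : Qd t c → ℝ := fun d => ∑ z ∈ (win η Y).filter (fun z => d ∣ z), 1 / (nm z : ℝ) with hT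
  have hTd : ∀ d : Qd t c, tp d → (nm d : ℝ) ≤ Q ^ 2 →
      |T d - 4 * kap η / (nm d : ℝ)| ≤ E := fun d hd hdQ =>
    tk_mult U hC₀ hlat hY hd (hwin _ (nm_posR U.disc hd) hdQ)
  have hcount : ∀ z : Qd t c, ((S.filter (fun p => ϖ p ∣ z)).card : ℝ) =
      ∑ p ∈ S, if ϖ p ∣ z then (1 : ℝ) else 0 := by
    intro z
    rw [card_filter]
    push_cast
    rfl
  have e1 : ∑ z ∈ win η Y, ((S.filter (fun p => ϖ p ∣ z)).card : ℝ) / (nm z : ℝ) =
      ∑ p ∈ S, T (ϖ p) := by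
    simp_rw [hcount, sum_div, hT, sum_filter]
    rw [sum_comm]
    refine sum_congr rfl fun p _ => sum_congr rfl fun z _ => ?_
    split_ifs <;> simp
  have e2 : ∑ z ∈ win η Y, ((S.filter (fun p => ϖ p ∣ z)).card : ℝ) ^ 2 / (nm z : ℝ) =
      ∑ p ∈ S, ∑ q ∈ S, ∑ z ∈ win η Y, (if ϖ p ∣ z ∧ ϖ q ∣ z then 1 / (nm z : ℝ) else 0) := by
    have h1 : ∀ z ∈ win η Y, ((S.filter (fun p => ϖ p ∣ z)).card : ℝ) ^ 2 / (nm z : ℝ) =
        ∑ p ∈ S, ∑ q ∈ S, (if ϖ p ∣ z ∧ ϖ q ∣ z then 1 / (nm z : ℝ) else 0) := by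
      intro z _
      rw [hcount, sq, sum_mul_sum, sum_div]
      refine sum_congr rfl fun p _ => ?_
      rw [sum_div]
      refine sum_congr rfl fun q _ => ?_
      by_cases hp : ϖ p ∣ z <;> by_cases hq : ϖ q ∣ z <;> simp [hp, hq]
    rw [sum_congr rfl h1, sum_comm]
    refine sum_congr rfl fun p _ => ?_
    rw [sum_comm]
  have e3 : ∀ p ∈ S, ∀ q ∈ S,
      ∑ z ∈ win η Y, (if ϖ p ∣ z ∧ ϖ q ∣ z then 1 / (nm z : ℝ) else 0) ≤
      4 * kap η * (1 / (p : ℝ)) * (1 / (q : ℝ)) + E +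
        (if p = q then 4 * kap η * (1 / (p : ℝ)) else 0) +
        (if a q = a p then 6 * C₂ * (1 / (p : ℝ) * (1 / (b q : ℝ))) else 0) +
        (if b q = b p then 6 * C₂ * (1 / (p : ℝ) * (1 / (a q : ℝ))) else 0) := by
    intro p hp q hq
    have hp0 : (0 : ℝ) < p := by linarith [h5 p hp]
    have hq0 : (0 : ℝ) < q := by linarith [h5 q hq]
    have hpp : nm (ϖ p) = p := (hEle.elt p (hS p hp).1).1
    have hqq : nm (ϖ q) = q := (hEle.elt q (hS q hq).1).1
    have hpQ := (hS p hp).2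
    have hqQ := (hS q hq).2
    have hpe := hab p hp
    have hqe := hab q hq
    have n1 : 0 ≤ (if a q = a p then 6 * C₂ * (1 / (p : ℝ) * (1 / (b q : ℝ))) else 0) := by
      split_ifs
      · exact npos _ _
      · exact le_rfl
    have n2 : 0 ≤ (if b q = b p then 6 * C₂ * (1 / (p : ℝ) * (1 / (a q : ℝ))) else 0) := by
      split_ifs
      · exact npos _ _
      · exact le_rfl
    have n3 : 0 ≤ 4 * kap η * (1 / (p : ℝ)) * (1 / (q : ℝ)) := kpos _ _
    by_cases hpq : p = q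
    · have h1 : ∑ z ∈ win η Y, (if ϖ p ∣ z ∧ ϖ q ∣ z then 1 / (nm z : ℝ) else 0) = T (ϖ p) := by
        rw [← hpq]
        simp_rw [and_self, hT, sum_filter]
      rw [h1, if_pos hpq]
      have h2 := (abs_le.1 (hTd (ϖ p) (htp p hp) (by rw [hpp]; exact hpQ.trans hQQ))).2
      rw [hpp] at h2
      have h4 : 4 * kap η / (p : ℝ) = 4 * kap η * (1 / (p : ℝ)) := by ring
      linarith
    · rw [if_neg hpq]
      by_cases hA : a q = a p
      · -- common prime of the first kind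
        have hb' : b q ≠ b p := by
          intro h
          apply hpq
          rw [hpe, hqe, hA, h]
        have h1 := shared U hEle hlati hY (hS p hp).1 (hS q hq).1 (hb q hq).1
          ⟨a q, by rw [mul_comm]; exact hqe⟩
          ⟨b p, by
            calc p * b q = (a p * b p) * b q := by rw [← hpe]
              _ = (a q * b q) * b p := by rw [hA]; ring
              _ = q * b p := by rw [← hqe]⟩
          (by
            intro h
            rw [hpe] at h
            rcases (Nat.Prime.dvd_mul (hb q hq).1).1 h with h | h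
            · exact hanb p hp q hq ((Nat.prime_dvd_prime_iff_eq (hb q hq).1 (ha p hp).1).1 h).symm
            · exact hb' ((Nat.prime_dvd_prime_iff_eq (hb q hq).1 (hb p hp).1).1 h))
        rw [if_pos hA]
        linarith
      · by_cases hB : b q = b p
        · have h1 := shared U hEle hlati hY (hS p hp).1 (hS q hq).1 (ha q hq).1
            ⟨b q, hqe⟩
            ⟨a p, by
              calc p * a q = (a p * b p) * a q := by rw [← hpe]
                _ = (a q * b q) * a p := by rw [hB]; ring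
                _ = q * a p := by rw [← hqe]⟩
            (by
              intro h
              rw [hpe] at h
              rcases (Nat.Prime.dvd_mul (ha q hq).1).1 h with h | h
              · exact hA ((Nat.prime_dvd_prime_iff_eq (ha q hq).1 (ha p hp).1).1 h)
              · exact hanb q hq p hp ((Nat.prime_dvd_prime_iff_eq (ha q hq).1 (hb p hp).1).1 h))
          rw [if_pos hB]
          linarith
        · -- coprime
          have hco : Nat.Coprime (nm (ϖ p)) (nm (ϖ q)) := by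
            rw [hpp, hqq, hpe, hqe]
            have k1 := (Nat.coprime_primes (ha p hp).1 (ha q hq).1).2 (fun h => hA h.symm)
            have k2 := (Nat.coprime_primes (ha p hp).1 (hb q hq).1).2 (hanb p hp q hq)
            have k3 := (Nat.coprime_primes (hb p hp).1 (ha q hq).1).2
              (fun h => hanb q hq p hp h.symm)
            have k4 := (Nat.coprime_primes (hb p hp).1 (hb q hq).1).2 (fun h => hB h.symm)
            exact Nat.Coprime.mul_left (Nat.Coprime.mul_right k1 k2) (Nat.Coprime.mul_right k3 k4)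
          have h1 : ∑ z ∈ win η Y, (if ϖ p ∣ z ∧ ϖ q ∣ z then 1 / (nm z : ℝ) else 0) =
              T (ϖ p * ϖ q) := by
            simp only [hT, sum_filter]
            refine sum_congr rfl fun z _ => ?_
            have : ϖ p * ϖ q ∣ z ↔ ϖ p ∣ z ∧ ϖ q ∣ z :=
              ⟨fun h => ⟨(dvd_mul_right _ _).trans h, (dvd_mul_left _ _).trans h⟩,
                fun h => mul_dvd_of_coprime U (htp p hp) (htp q hq) hco h.1 h.2⟩
            simp only [this]
          rw [h1]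
          have h2 := (abs_le.1 (hTd (ϖ p * ϖ q) (tp_mul U.disc (htp p hp) (htp q hq)) (by
              rw [nm_mul, hpp, hqq]; push_cast; rw [sq]
              exact mul_le_mul hpQ hqQ hq0.le (by linarith)))).2
          rw [nm_mul, hpp, hqq] at h2
          push_cast at h2
          have h4 : 4 * kap η / ((p : ℝ) * q) = 4 * kap η * (1 / (p : ℝ)) * (1 / (q : ℝ)) := by
            field_simp
          linarith
  -- the sums over the pairs with a common prime
  have s1 : ∀ p ∈ S, ∑ q ∈ S, (if a q = a p then 6 * C₂ * (1 / (p : ℝ) * (1 / (b q : ℝ))) else 0) ≤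
      6 * C₂ * C₃ * (1 / (p : ℝ)) := by
    intro p hp
    have h1 : ∑ q ∈ S, (if a q = a p then 6 * C₂ * (1 / (p : ℝ) * (1 / (b q : ℝ))) else 0) =
        6 * C₂ * (1 / (p : ℝ)) * ∑ r ∈ (S.filter (fun q => a q = a p)).image b, 1 / (r : ℝ) := by
      rw [← sum_filter, sum_image, mul_sum]
      · refine sum_congr rfl fun q _ => ?_
        ring
      · intro x hx y hy hxy
        simp only [coe_filter, Set.mem_ofPred_eq] at hx hy
        rw [hab x hx.1, hab y hy.1, hx.2, hy.2, hxy]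
    rw [h1]
    have h2 := hrec (a p) ((S.filter (fun q => a q = a p)).image b) (by
      intro r hr
      rw [mem_image] at hr
      obtain ⟨q, hq, rfl⟩ := hr
      rw [mem_filter] at hq
      have h3 := hfac q (hS q hq.1).1
      rw [← hq.2]
      exact ⟨(hb q hq.1).1, h3.2.2.2.2, h3.2.2.2.1⟩)
    have h3 : 0 ≤ 6 * C₂ * (1 / (p : ℝ)) := npos1 _
    calc _ ≤ 6 * C₂ * (1 / (p : ℝ)) * C₃ := mul_le_mul_of_nonneg_left h2 h3
      _ = _ := by ring
  have s2 : ∀ p ∈ S, ∑ q ∈ S, (if b q = b p then 6 * C₂ * (1 / (p : ℝ) * (1 / (a q : ℝ))) else 0) ≤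
      6 * C₂ * C₃ * (1 / (p : ℝ)) := by
    intro p hp
    have h1 : ∑ q ∈ S, (if b q = b p then 6 * C₂ * (1 / (p : ℝ) * (1 / (a q : ℝ))) else 0) =
        6 * C₂ * (1 / (p : ℝ)) * ∑ r ∈ (S.filter (fun q => b q = b p)).image a, 1 / (r : ℝ) := by
      rw [← sum_filter, sum_image, mul_sum]
      · refine sum_congr rfl fun q _ => ?_
        ring
      · intro x hx y hy hxy
        simp only [coe_filter, Set.mem_ofPred_eq] at hx hy
        rw [hab x hx.1, hab y hy.1, hx.2, hy.2, hxy]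
    rw [h1]
    have h2 := hrec (b p) ((S.filter (fun q => b q = b p)).image a) (by
      intro r hr
      rw [mem_image] at hr
      obtain ⟨q, hq, rfl⟩ := hr
      rw [mem_filter] at hq
      have h3 := hfac q (hS q hq.1).1
      rw [← hq.2]
      exact ⟨(ha q hq.1).1, h3.2.2.2.1, h3.2.2.2.2⟩)
    have h3 : 0 ≤ 6 * C₂ * (1 / (p : ℝ)) := npos1 _
    calc _ ≤ 6 * C₂ * (1 / (p : ℝ)) * C₃ := mul_le_mul_of_nonneg_left h2 h3
      _ = _ := by ring
  have f2 : ∑ z ∈ win η Y, ((S.filter (fun p => ϖ p ∣ z)).card : ℝ) ^ 2 / (nm z : ℝ) ≤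
      4 * kap η * W ^ 2 + (S.card : ℝ) ^ 2 * E + 4 * kap η * W + 12 * C₂ * C₃ * W := by
    rw [e2]
    have h1 : ∀ p ∈ S, ∑ q ∈ S,
        ∑ z ∈ win η Y, (if ϖ p ∣ z ∧ ϖ q ∣ z then 1 / (nm z : ℝ) else 0) ≤
        4 * kap η * (1 / (p : ℝ)) * W + S.card * E + 4 * kap η * (1 / (p : ℝ)) +
        12 * C₂ * C₃ * (1 / (p : ℝ)) := by
      intro p hp
      refine (sum_le_sum fun q hq => e3 p hp q hq).trans ?_
      simp only [sum_add_distrib]
      have h2 : ∑ q ∈ S, (if p = q then 4 * kap η * (1 / (p : ℝ)) else 0) =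
          4 * kap η * (1 / (p : ℝ)) := by
        rw [sum_ite_eq, if_pos hp]
      have h3 : ∑ q ∈ S, 4 * kap η * (1 / (p : ℝ)) * (1 / (q : ℝ)) =
          4 * kap η * (1 / (p : ℝ)) * W := by
        rw [← mul_sum]
      have h4 : ∑ q ∈ S, E = S.card * E := by
        rw [sum_const, nsmul_eq_mul]
      rw [h2, h3, h4]
      have h5 := s1 p hp
      have h6 := s2 p hp
      linarith
    refine (sum_le_sum h1).trans (le_of_eq ?_)
    simp only [sum_add_distrib, ← mul_sum, ← sum_mul, sum_const, nsmul_eq_mul]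
    rw [← hWdef]
    ring
  have f1 : 4 * kap η * W - S.card * E ≤
      ∑ z ∈ win η Y, ((S.filter (fun p => ϖ p ∣ z)).card : ℝ) / (nm z : ℝ) := by
    rw [e1]
    have h1 : ∀ p ∈ S, 4 * kap η * (1 / (p : ℝ)) - E ≤ T (ϖ p) := by
      intro p hp
      have hpp : nm (ϖ p) = p := (hEle.elt p (hS p hp).1).1
      have hpQ := (hS p hp).2
      have hp5 := h5 p hp
      have h2 := (abs_le.1 (hTd (ϖ p) (htp p hp) (by rw [hpp]; exact hpQ.trans hQQ))).1
      rw [hpp] at h2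
      have h4 : 4 * kap η / (p : ℝ) = 4 * kap η * (1 / (p : ℝ)) := by ring
      linarith
    refine le_trans (le_of_eq ?_) (sum_le_sum h1)
    simp only [sum_sub_distrib, ← mul_sum, sum_const, nsmul_eq_mul]
    rw [← hWdef]
  have f0 : ∑ z ∈ win η Y, 1 / (nm z : ℝ) ≤ 4 * kap η + E := by
    have h1 := (abs_le.1 (hTd 1 tp_one
      (by rw [nm_one]; push_cast; linarith))).2
    have h2 : T 1 = ∑ z ∈ win η Y, 1 / (nm z : ℝ) := by
      simp only [hT, one_dvd, filter_true]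
    rw [h2] at h1
    simp only [nm_one, Nat.cast_one, div_one] at h1
    linarith
  have hexp : ∀ W : ℝ, ∑ z ∈ win η Y, (((S.filter (fun p => ϖ p ∣ z)).card : ℝ) - W) ^ 2 /
        (nm z : ℝ) =
      ∑ z ∈ win η Y, ((S.filter (fun p => ϖ p ∣ z)).card : ℝ) ^ 2 / (nm z : ℝ) -
        2 * W * ∑ z ∈ win η Y, ((S.filter (fun p => ϖ p ∣ z)).card : ℝ) / (nm z : ℝ) +
        W ^ 2 * ∑ z ∈ win η Y, 1 / (nm z : ℝ) := by
    intro W
    rw [mul_sum, mul_sum, ← sum_sub_distrib, ← sum_add_distrib]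
    refine sum_congr rfl fun z _ => ?_
    ring
  rw [hexp]
  have hW0 : 0 < W := by linarith
  have g1 : 2 * W * (4 * kap η * W - S.card * E) ≤
      2 * W * ∑ z ∈ win η Y, ((S.filter (fun p => ϖ p ∣ z)).card : ℝ) / (nm z : ℝ) :=
    mul_le_mul_of_nonneg_left f1 (by positivity)
  have g0 : W ^ 2 * ∑ z ∈ win η Y, 1 / (nm z : ℝ) ≤ W ^ 2 * (4 * kap η + E) :=
    mul_le_mul_of_nonneg_left f0 (by positivity)
  -- the error term
  have hc0 : (0 : ℝ) ≤ S.card := by positivity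
  have hEQ : Q ^ 2 * E ≤ C₁ := by
    have h1 : Q ^ 2 ≤ Real.sqrt Y := by
      apply Real.le_sqrt_of_sq_le
      calc (Q ^ 2) ^ 2 = Q ^ 4 := by ring
        _ ≤ Y := hQY
    rw [hE, mul_div_assoc', div_le_iff₀ (Real.sqrt_pos.2 hY)]
    nlinarith
  have h5 : (S.card : ℝ) ^ 2 ≤ Q ^ 2 := pow_le_pow_left₀ hc0 hcardQ 2
  have h6 : W * S.card ≤ Q ^ 2 := by
    calc W * S.card ≤ S.card * S.card := mul_le_mul_of_nonneg_right hWcard hc0
      _ = (S.card : ℝ) ^ 2 := by ring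
      _ ≤ Q ^ 2 := h5
  have h7 : W ^ 2 ≤ Q ^ 2 := (pow_le_pow_left₀ hW0.le hWcard 2).trans h5
  have h8 : (S.card : ℝ) ^ 2 * E ≤ Q ^ 2 * E := mul_le_mul_of_nonneg_right h5 hE0.le
  have h9 : W * S.card * E ≤ Q ^ 2 * E := mul_le_mul_of_nonneg_right h6 hE0.le
  have h10 : W ^ 2 * E ≤ Q ^ 2 * E := mul_le_mul_of_nonneg_right h7 hE0.le
  have h11 : C₁ ≤ C₁ * W := le_mul_of_one_le_right hC₁0.le hW
  have h12 : 2 * W * (4 * kap η * W - S.card * E) =
      8 * kap η * W ^ 2 - 2 * (W * S.card * E) := by ring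
  have h13 : W ^ 2 * (4 * kap η + E) = 4 * kap η * W ^ 2 + W ^ 2 * E := by ring
  have h14 : (4 * kap η + 5 * C₁ + 12 * C₂ * C₃) * W =
      4 * kap η * W + 5 * (C₁ * W) + 12 * C₂ * C₃ * W := by ring
  rw [h12] at g1
  rw [h13] at g0
  rw [h14]
  linarith

end Pool.Agent.W248.GR
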